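import Pool.Agent.U14.MV.Mean

/-!
# The local `L²`-`L^∞` inequality for solutions of `ΔU = - V U`
-/

set_option autoImplicit false

open Filter Topology Set MeasureTheory
open scoped InnerProductSpace

namespace Pool.Agent.U14.MV

open Pool.Agent.R737.HO

lemma pd_pd {f : ℂ → ℝ} {z v : ℂ} (hf : ContDiffAt ℝ 2 f z) :
    pd v (pd v f) z = deriv (deriv (fun t : ℝ => f (z + t * v))) 0 := by
  have hline : ∀ s : ℝ, HasDerivAt (fun t : ℝ => z + (t : ℂ) * v) v s := fun s => by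
    have := ((Complex.ofRealCLM.hasDerivAt (x := s)).mul_const v).const_add z
    simpa using this
  have h0 : ContDiffAt ℝ 2 f (z + ((0 : ℝ) : ℂ) * v) := by simpa using hf
  have hev : ∀ᶠ s : ℝ in 𝓝 0, ContDiffAt ℝ 2 f (z + (s : ℂ) * v) :=
    ((hline 0).continuousAt.eventually (h0.eventually (by simp)))
  have h1 : deriv (fun t : ℝ => f (z + t * v)) =ᶠ[𝓝 0] fun s => pd v f (z + s * v) := by
    filter_upwards [hev] with s hs
    have h2 : HasFDerivAt f (fderiv ℝ f (z + s * v)) (z + s * v) := (hs.differentiableAt (by norm_num)).hasFDerivAt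
    exact (h2.comp_hasDerivAt s (hline s)).deriv
  rw [h1.deriv_eq]
  have h3 : ContDiffAt ℝ 1 (fderiv ℝ f) (z + ((0 : ℝ) : ℂ) * v) := h0.fderiv_right (by norm_num)
  have h4 : DifferentiableAt ℝ (pd v f) (z + ((0 : ℝ) : ℂ) * v) :=
    (h3.clm_apply contDiffAt_const).differentiableAt (by norm_num)
  have h5 := (h4.hasFDerivAt.comp_hasDerivAt (0 : ℝ) (hline 0)).deriv
  have e : deriv (fun s : ℝ => pd v f (z + s * v)) 0 = fderiv ℝ (pd v f) (z + ((0 : ℝ) : ℂ) * v) v := h5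
  rw [e]
  simp [pd]

lemma normsq_line {h : ℝ → ℂ} (hh : ContDiffAt ℝ 2 h 0) :
    2 * ⟪h 0, deriv (deriv h) 0⟫_ℝ ≤ deriv (deriv (fun t => ‖h t‖ ^ 2)) 0 := by
  have hev : ∀ᶠ s : ℝ in 𝓝 0, ContDiffAt ℝ 2 h s := hh.eventually (by simp)
  have h1 : deriv (fun t => ‖h t‖ ^ 2) =ᶠ[𝓝 0] fun s => 2 * ⟪h s, deriv h s⟫_ℝ := by
    filter_upwards [hev] with s hs
    exact ((hs.differentiableAt (by norm_num)).hasDerivAt.norm_sq).deriv
  rw [h1.deriv_eq]
  have d0 : HasDerivAt h (deriv h 0) 0 := (hh.differentiableAt (by norm_num)).hasDerivAt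
  have d1 : DifferentiableAt ℝ (deriv h) 0 := by
    have h2 : ContDiffAt ℝ 1 (fderiv ℝ h) 0 := hh.fderiv_right (by norm_num)
    have h3 : DifferentiableAt ℝ (fun s => fderiv ℝ h s 1) 0 :=
      (h2.clm_apply contDiffAt_const).differentiableAt (by norm_num)
    exact h3
  have d2 := (d0.inner ℝ d1.hasDerivAt).const_mul 2
  rw [d2.deriv]
  have : 0 ≤ ⟪deriv h 0, deriv h 0⟫_ℝ := real_inner_self_nonneg
  linarith

/-- **The local `L²` bound.** -/
theorem loc {U : ℂ → ℂ} (hU : ContDiffOn ℝ 2 U {z : ℂ | 0 < z.im}) {p : ℂ} (_hp : 0 < p.im) {ρ V₀ : ℝ}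
    (hρ : 0 < ρ) (hρ' : ρ ≤ p.im / 4) (V : ℂ → ℝ)
    (hV : ∀ z, ‖z - p‖ ≤ ρ → 0 ≤ V z ∧ V z ≤ V₀)
    (heq : ∀ z, ‖z - p‖ ≤ ρ → deriv (deriv (fun t : ℝ => U (z + (t : ℂ)))) 0 +
      deriv (deriv (fun t : ℝ => U (z + (t : ℂ) * Complex.I))) 0 = -((V z : ℂ) * U z)) :
    Real.pi * ‖U p‖ ^ 2 ≤ Real.exp (V₀ * ρ ^ 2 / 2) * ∫ ξ in Metric.ball (0:ℂ) 1, ‖U (p + ρ * ξ)‖ ^ 2 := by
  have hV0 : 0 ≤ V₀ := (hV p (by simp [hρ.le])).1.trans (hV p (by simp [hρ.le])).2
  let χ : ContDiffBump p := ⟨p.im / 2, 3 * p.im / 4, by linarith, by linarith⟩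
  set f : ℂ → ℝ := fun z => χ z * ‖U z‖ ^ 2 with hf
  have hopen : IsOpen {z : ℂ | 0 < z.im} := isOpen_lt continuous_const Complex.continuous_im
  have hin : ∀ z : ℂ, ‖z - p‖ < p.im → 0 < z.im := by
    intro z hz
    have h1 := Complex.abs_im_le_norm (z - p)
    rw [Complex.sub_im] at h1
    have := (abs_lt.1 (h1.trans_lt hz)).1
    linarith
  have hUat : ∀ z : ℂ, 0 < z.im → ContDiffAt ℝ 2 U z := fun z hz => hU.contDiffAt (hopen.mem_nhds hz)
  have hvat : ∀ z : ℂ, 0 < z.im → ContDiffAt ℝ 2 (fun z => ‖U z‖ ^ 2) z := fun z hz => (hUat z hz).norm_sq ℝ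
  have hfC : ContDiff ℝ 2 f := by
    refine contDiff_iff_contDiffAt.2 fun z => ?_
    by_cases hz : z ∈ tsupport f
    swap
    · exact contDiffAt_const.congr_of_eventuallyEq (notMem_tsupport_iff_eventuallyEq.1 hz)
    have h1 : z ∈ tsupport χ := by
      refine closure_mono ?_ hz
      intro w hw
      rw [Function.mem_support] at hw ⊢
      intro h0
      exact hw (by rw [hf]; simp [h0])
    rw [χ.tsupport_eq] at h1
    have h2 : ‖z - p‖ ≤ 3 * p.im / 4 := by simpa [dist_eq_norm] using h1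
    exact (χ.contDiff.contDiffAt).mul (hvat z (hin z (by linarith)))
  have hnear : ∀ z, ‖z - p‖ ≤ ρ → f =ᶠ[𝓝 z] fun z => ‖U z‖ ^ 2 := by
    intro z hz
    have h1 : ∀ᶠ w in 𝓝 z, ‖w - p‖ < p.im / 2 := by
      have : ContinuousAt (fun w : ℂ => ‖w - p‖) z := by fun_prop
      exact this.eventually (gt_mem_nhds (by linarith))
    filter_upwards [h1] with w hw
    have h2 : χ w = 1 := χ.one_of_mem_closedBall (by
      show dist w p ≤ p.im / 2
      rw [dist_eq_norm]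
      exact hw.le)
    rw [hf]
    simp only
    rw [h2, one_mul]
  have key := mean_value hfC (p := p) (K := 2 * V₀) hρ (by positivity) (fun z hz => ?_)
  · have e1 : f p = ‖U p‖ ^ 2 := (hnear p (by simp [hρ.le])).self_of_nhds
    have e2 : ∫ ξ in Metric.ball (0:ℂ) 1, f (p + ρ * ξ) = ∫ ξ in Metric.ball (0:ℂ) 1, ‖U (p + ρ * ξ)‖ ^ 2 := by
      refine setIntegral_congr_fun measurableSet_ball fun ξ hξ => ?_
      have h1 : ‖ξ‖ < 1 := by simpa using hξ
      exact (hnear (p + ρ * ξ) (by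
        rw [add_sub_cancel_left, norm_mul, Complex.norm_real, Real.norm_of_nonneg hρ.le]
        nlinarith)).self_of_nhds
    rw [e1, e2] at key
    convert key using 3
    ring
  · have hz0 : 0 < z.im := hin z (by linarith)
    have h1 := hnear z hz
    have e0 : f z = ‖U z‖ ^ 2 := h1.self_of_nhds
    have hpd : ∀ v : ℂ, pd v (pd v f) z = pd v (pd v fun z => ‖U z‖ ^ 2) z := by
      intro v
      have h2 : pd v f =ᶠ[𝓝 z] pd v fun z => ‖U z‖ ^ 2 := by
        filter_upwards [h1.fderiv (𝕜 := ℝ)] with w hw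
        unfold pd
        rw [hw]
      unfold pd at h2 ⊢
      rw [h2.fderiv_eq]
    have hl : ∀ v : ℂ, 2 * ⟪U z, deriv (deriv (fun t : ℝ => U (z + t * v))) 0⟫_ℝ ≤ pd v (pd v f) z := by
      intro v
      rw [hpd, pd_pd (hvat z hz0)]
      have h3 : ContDiffAt ℝ 2 (fun t : ℝ => U (z + t * v)) 0 := by
        refine ContDiffAt.comp (0 : ℝ) (g := U) ?_ ?_
        · simpa using hUat z hz0
        · exact (contDiff_const.add (Complex.ofRealCLM.contDiff.mul contDiff_const)).contDiffAt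
      have h4 := normsq_line h3
      simpa using h4
    refine ⟨by rw [e0]; positivity, ?_⟩
    have h5 := hl 1
    have h6 := hl Complex.I
    simp only [mul_one] at h5
    have h7 := heq z hz
    have h8 : ⟪U z, deriv (deriv (fun t : ℝ => U (z + (t : ℂ)))) 0⟫_ℝ +
        ⟪U z, deriv (deriv (fun t : ℝ => U (z + (t : ℂ) * Complex.I))) 0⟫_ℝ = -(V z * ‖U z‖ ^ 2) := by
      rw [← inner_add_right, h7, inner_neg_right]
      have : ((V z : ℂ) * U z) = (V z) • U z := by rw [Complex.real_smul]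
      rw [this, real_inner_smul_right, real_inner_self_eq_norm_sq]
    have h9 : V z * ‖U z‖ ^ 2 ≤ V₀ * ‖U z‖ ^ 2 := by
      gcongr
      exact (hV z hz).2
    rw [e0]
    linarith

end Pool.Agent.U14.MV
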