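import Pool.Agent.U14.MV.Loc

/-!
# The oscillation of solutions of `ΔU = - V U` on small discs
-/

set_option autoImplicit false

open Filter Topology Set MeasureTheory

namespace Pool.Agent.U14.MV

open Pool.Agent.R737.HO

theorem mean_real {u : ℂ → ℝ} (hu : ContDiffOn ℝ 2 u {z : ℂ | 0 < z.im}) {p : ℂ} {ρ K : ℝ} (hρ : 0 < ρ)
    (hρ' : ρ ≤ p.im / 4) (hK : 0 ≤ K)
    (h : ∀ z, ‖z - p‖ ≤ ρ → 0 ≤ u z ∧ -(K * u z) ≤ pd 1 (pd 1 u) z + pd Complex.I (pd Complex.I u) z) :
    Real.pi * u p ≤ Real.exp (K * ρ ^ 2 / 4) * ∫ ξ in Metric.ball (0:ℂ) 1, u (p + ρ * ξ) := by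
  let χ : ContDiffBump p := ⟨p.im / 2, 3 * p.im / 4, by linarith, by linarith⟩
  set f : ℂ → ℝ := fun z => χ z * u z with hf
  have hopen : IsOpen {z : ℂ | 0 < z.im} := isOpen_lt continuous_const Complex.continuous_im
  have hin : ∀ z : ℂ, ‖z - p‖ < p.im → 0 < z.im := by
    intro z hz
    have h1 := Complex.abs_im_le_norm (z - p)
    rw [Complex.sub_im] at h1
    have := (abs_lt.1 (h1.trans_lt hz)).1
    linarith
  have huat : ∀ z : ℂ, 0 < z.im → ContDiffAt ℝ 2 u z := fun z hz => hu.contDiffAt (hopen.mem_nhds hz)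
  have hfC : ContDiff ℝ 2 f := by
    refine contDiff_iff_contDiffAt.2 fun z => ?_
    by_cases hz : z ∈ tsupport f
    swap
    · exact contDiffAt_const.congr_of_eventuallyEq (notMem_tsupport_iff_eventuallyEq.1 hz)
    have h1 : z ∈ tsupport χ := by
      refine closure_mono ?_ hz
      intro w hw
      rw [Function.mem_support] at hw ⊢
      intro h0
      exact hw (by rw [hf]; simp [h0])
    rw [χ.tsupport_eq] at h1
    have h2 : ‖z - p‖ ≤ 3 * p.im / 4 := by simpa [dist_eq_norm] using h1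
    exact (χ.contDiff.contDiffAt).mul (huat z (hin z (by linarith)))
  have hnear : ∀ z, ‖z - p‖ ≤ ρ → f =ᶠ[𝓝 z] u := by
    intro z hz
    have h1 : ∀ᶠ w in 𝓝 z, ‖w - p‖ < p.im / 2 := by
      have : ContinuousAt (fun w : ℂ => ‖w - p‖) z := by fun_prop
      exact this.eventually (gt_mem_nhds (by linarith))
    filter_upwards [h1] with w hw
    have h2 : χ w = 1 := χ.one_of_mem_closedBall (by
      show dist w p ≤ p.im / 2
      rw [dist_eq_norm]
      exact hw.le)
    rw [hf]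
    simp only
    rw [h2, one_mul]
  have key := mean_value hfC (p := p) (K := K) hρ hK (fun z hz => ?_)
  · have e1 : f p = u p := (hnear p (by simp [hρ.le])).self_of_nhds
    have e2 : ∫ ξ in Metric.ball (0:ℂ) 1, f (p + ρ * ξ) = ∫ ξ in Metric.ball (0:ℂ) 1, u (p + ρ * ξ) := by
      refine setIntegral_congr_fun measurableSet_ball fun ξ hξ => ?_
      have h1 : ‖ξ‖ < 1 := by simpa using hξ
      exact (hnear (p + ρ * ξ) (by
        rw [add_sub_cancel_left, norm_mul, Complex.norm_real, Real.norm_of_nonneg hρ.le]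
        nlinarith)).self_of_nhds
    rwa [e1, e2] at key
  · have h1 := hnear z hz
    have hpd : ∀ v : ℂ, pd v (pd v f) z = pd v (pd v u) z := by
      intro v
      have h2 : pd v f =ᶠ[𝓝 z] pd v u := by
        filter_upwards [h1.fderiv (𝕜 := ℝ)] with w hw
        unfold pd
        rw [hw]
      unfold pd at h2 ⊢
      rw [h2.fderiv_eq]
    rw [hpd, hpd, h1.self_of_nhds]
    exact h z hz

lemma re_line {h : ℝ → ℂ} (hh : ContDiffAt ℝ 2 h 0) (A : ℝ) (c : ℂ) :
    deriv (deriv (fun t => A + (c * h t).re)) 0 = (c * deriv (deriv h) 0).re := by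
  have hev : ∀ᶠ s : ℝ in 𝓝 0, ContDiffAt ℝ 2 h s := hh.eventually (by simp)
  have h1 : deriv (fun t => A + (c * h t).re) =ᶠ[𝓝 0] fun s => (c * deriv h s).re := by
    filter_upwards [hev] with s hs
    have h2 := ((hs.differentiableAt (by norm_num)).hasDerivAt.const_mul c)
    have h3 := (Complex.reCLM.hasFDerivAt.comp_hasDerivAt s h2).const_add A
    exact h3.deriv
  rw [h1.deriv_eq]
  have d1 : DifferentiableAt ℝ (deriv h) 0 := by
    have h2 : ContDiffAt ℝ 1 (fderiv ℝ h) 0 := hh.fderiv_right (by norm_num)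
    have h3 : DifferentiableAt ℝ (fun s => fderiv ℝ h s 1) 0 :=
      (h2.clm_apply contDiffAt_const).differentiableAt (by norm_num)
    exact h3
  have h2 := d1.hasDerivAt.const_mul c
  exact (Complex.reCLM.hasFDerivAt.comp_hasDerivAt (0:ℝ) h2).deriv

theorem mean_sol {U : ℂ → ℂ} (hU : ContDiffOn ℝ 2 U {z : ℂ | 0 < z.im}) {p : ℂ} {ρ V₀ M : ℝ} (c : ℂ)
    (hc : ‖c‖ ≤ 1) (hρ : 0 < ρ) (hρ' : ρ ≤ p.im / 4) (V : ℂ → ℝ)
    (hV : ∀ z, ‖z - p‖ ≤ ρ → 0 ≤ V z ∧ V z ≤ V₀) (hM : ∀ z, ‖z - p‖ ≤ ρ → ‖U z‖ ≤ M)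
    (heq : ∀ z, ‖z - p‖ ≤ ρ → deriv (deriv (fun t : ℝ => U (z + (t : ℂ)))) 0 +
      deriv (deriv (fun t : ℝ => U (z + (t : ℂ) * Complex.I))) 0 = -((V z : ℂ) * U z)) :
    Real.pi * (2 * M + (c * U p).re) ≤
      Real.exp (V₀ * ρ ^ 2 / 4) * ∫ ξ in Metric.ball (0:ℂ) 1, (2 * M + (c * U (p + ρ * ξ)).re) := by
  have hV0 : 0 ≤ V₀ := (hV p (by simp [hρ.le])).1.trans (hV p (by simp [hρ.le])).2
  have hopen : IsOpen {z : ℂ | 0 < z.im} := isOpen_lt continuous_const Complex.continuous_im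
  have hu : ContDiffOn ℝ 2 (fun z => 2 * M + (c * U z).re) {z : ℂ | 0 < z.im} :=
    contDiffOn_const.add (Complex.reCLM.contDiff.comp_contDiffOn (contDiffOn_const.mul hU))
  refine mean_real (u := fun z => 2 * M + (c * U z).re) hu hρ hρ' hV0 fun z hz => ?_
  have hz0 : 0 < z.im := by
    have h1 := Complex.abs_im_le_norm (z - p)
    rw [Complex.sub_im] at h1
    have := (abs_le.1 (h1.trans hz)).1
    linarith
  have h1 : |(c * U z).re| ≤ M := by
    refine (Complex.abs_re_le_norm _).trans ?_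
    rw [norm_mul]
    have := hM z hz
    have h2 := norm_nonneg (U z)
    nlinarith [norm_nonneg c]
  have h2 := abs_le.1 h1
  obtain ⟨h3, h4⟩ := hV z hz
  have hl : ∀ v : ℂ, pd v (pd v fun z => 2 * M + (c * U z).re) z =
      (c * deriv (deriv (fun t : ℝ => U (z + t * v))) 0).re := by
    intro v
    rw [pd_pd (hu.contDiffAt (hopen.mem_nhds hz0))]
    have h3 : ContDiffAt ℝ 2 (fun t : ℝ => U (z + t * v)) 0 := by
      refine ContDiffAt.comp (0 : ℝ) (g := U) ?_ ?_
      · simpa using hU.contDiffAt (hopen.mem_nhds hz0)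
      · exact (contDiff_const.add (Complex.ofRealCLM.contDiff.mul contDiff_const)).contDiffAt
    exact re_line h3 (2 * M) c
  rw [hl, hl]
  simp only [mul_one]
  rw [← Complex.add_re, ← mul_add, heq z hz]
  have e : (c * -((V z : ℂ) * U z)).re = -(V z * (c * U z).re) := by
    have : c * -((V z : ℂ) * U z) = ((-V z : ℝ) : ℂ) * (c * U z) := by push_cast; ring
    rw [this, Complex.re_ofReal_mul]
    ring
  rw [e]
  refine ⟨by linarith, ?_⟩
  have h5 : V z * (c * U z).re ≤ V z * M := mul_le_mul_of_nonneg_left h2.2 h3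
  have hM0 : 0 ≤ M := (abs_nonneg _).trans h1
  have h6 : V z * M ≤ V₀ * M := mul_le_mul_of_nonneg_right h4 hM0
  have h7 : V₀ * M ≤ V₀ * (2 * M + (c * U z).re) := mul_le_mul_of_nonneg_left (by linarith) hV0
  linarith

lemma scale' {F : ℂ → ℝ} (w : ℂ) {ρ : ℝ} (hρ : 0 < ρ) :
    ∫ ξ in Metric.ball (0 : ℂ) 1, F (w + ρ * ξ) = (ρ ^ 2)⁻¹ * ∫ z in Metric.ball w ρ, F z := by
  rw [← integral_indicator Metric.isOpen_ball.measurableSet, ← integral_indicator Metric.isOpen_ball.measurableSet]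
  have e1 : ∀ ξ : ℂ, (Metric.ball (0 : ℂ) 1).indicator (fun ξ => F (w + ρ * ξ)) ξ =
      (Metric.ball w ρ).indicator F (w + ρ • ξ) := by
    intro ξ
    have h1 : ξ ∈ Metric.ball (0 : ℂ) 1 ↔ w + ρ • ξ ∈ Metric.ball w ρ := by
      rw [mem_ball_zero_iff, mem_ball_iff_norm, add_sub_cancel_left, norm_smul, Real.norm_of_nonneg hρ.le]
      constructor
      · intro h
        nlinarith
      · intro h
        by_contra h2
        push Not at h2
        nlinarith
    by_cases h : ξ ∈ Metric.ball (0 : ℂ) 1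
    · rw [Set.indicator_of_mem h, Set.indicator_of_mem (h1.1 h), Complex.real_smul]
    · rw [Set.indicator_of_notMem h, Set.indicator_of_notMem (fun h3 => h (h1.2 h3))]
  simp only [e1]
  have h2 := Measure.integral_comp_smul (volume : Measure ℂ) (fun z => (Metric.ball w ρ).indicator F (w + z)) ρ
  rw [h2, Complex.finrank_real_complex, abs_of_pos (by positivity), smul_eq_mul,
    integral_add_left_eq_self (fun z => (Metric.ball w ρ).indicator F z) w]

/-- **The oscillation of a solution at a scale small compared with the wave length.** -/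
theorem osc {U : ℂ → ℂ} (hU : ContDiffOn ℝ 2 U {z : ℂ | 0 < z.im}) {w z : ℂ} {s ε V₀ M : ℝ} (hs : 0 < s)
    (hε0 : 0 ≤ ε) (hε : ε ≤ 1) (hsw : 16 * s ≤ w.im) (hzw : ‖z - w‖ ≤ ε * s) (V : ℂ → ℝ)
    (hV : ∀ x, ‖x - w‖ ≤ 3 * s → 0 ≤ V x ∧ V x ≤ V₀) (hM : ∀ x, ‖x - w‖ ≤ 3 * s → ‖U x‖ ≤ M)
    (heq : ∀ x, ‖x - w‖ ≤ 3 * s → deriv (deriv (fun t : ℝ => U (x + (t : ℂ)))) 0 +
      deriv (deriv (fun t : ℝ => U (x + (t : ℂ) * Complex.I))) 0 = -((V x : ℂ) * U x)) :
    ‖U w‖ - ‖U z‖ ≤ 4 * M * (Real.exp (V₀ * s ^ 2) * (1 + ε) ^ 2 - 1) := by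
  obtain ⟨c, hc, hcw⟩ : ∃ c : ℂ, ‖c‖ ≤ 1 ∧ (c * U w).re = ‖U w‖ := by
    by_cases h0 : U w = 0
    · exact ⟨0, by simp, by simp [h0]⟩
    · have hn : (‖U w‖ : ℂ) ≠ 0 := by
        exact_mod_cast norm_ne_zero_iff.2 h0
      refine ⟨(starRingEnd ℂ) (U w) / ‖U w‖, ?_, ?_⟩
      · rw [norm_div, Complex.norm_conj, Complex.norm_real, norm_norm]
        exact div_self_le_one _
      · have e : (starRingEnd ℂ) (U w) / ‖U w‖ * U w = ((‖U w‖ : ℝ) : ℂ) := by
          rw [div_mul_eq_mul_div, mul_comm, Complex.mul_conj, Complex.normSq_eq_norm_sq]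
          push_cast
          field_simp
        rw [e, Complex.ofReal_re]
  have hM0 : 0 ≤ M := (norm_nonneg _).trans (hM w (by simp; positivity))
  set s' : ℝ := (1 + ε) * s with hs'
  have hs'0 : 0 < s' := by positivity
  have hs'2 : s' ≤ 2 * s := by nlinarith
  have hV0 : 0 ≤ V₀ := (hV w (by simp; positivity)).1.trans (hV w (by simp; positivity)).2
  have hzz : ∀ x, ‖x - z‖ ≤ s' → ‖x - w‖ ≤ 3 * s := by
    intro x hx
    have h1 : ‖x - w‖ ≤ ‖x - z‖ + ‖z - w‖ := by
      have := norm_add_le (x - z) (z - w)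
      simpa using this
    nlinarith
  have him : ∀ x, ‖x - w‖ ≤ 3 * s → w.im / 2 ≤ x.im := by
    intro x hx
    have h1 := Complex.abs_im_le_norm (x - w)
    rw [Complex.sub_im] at h1
    have := (abs_le.1 (h1.trans hx)).1
    linarith
  have hzim : w.im / 2 ≤ z.im := him z (hzz z (by simp [hs'0.le]))
  have h1 := mean_sol hU (p := w) (M := M) c hc hs (by linarith) V (fun x hx => hV x (by linarith))
    (fun x hx => hM x (by linarith)) (fun x hx => heq x (by linarith))
  have h2 := mean_sol hU (p := z) (M := M) (-c) (by rwa [norm_neg]) hs'0 (by linarith) V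
    (fun x hx => hV x (hzz x hx)) (fun x hx => hM x (hzz x hx)) (fun x hx => heq x (hzz x hx))
  rw [hcw] at h1
  have hcont : ContinuousOn (fun x => 2 * M + (c * U x).re) {z : ℂ | 0 < z.im} :=
    continuousOn_const.add (Complex.continuous_re.comp_continuousOn (continuousOn_const.mul hU.continuousOn))
  have hclosed : Metric.closedBall z s' ⊆ {z : ℂ | 0 < z.im} := by
    intro x hx
    have h3 := him x (hzz x (by simpa [dist_eq_norm] using hx))
    show 0 < x.im
    linarith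
  have hI : IntegrableOn (fun x => 2 * M + (c * U x).re) (Metric.ball z s') :=
    (ContinuousOn.integrableOn_compact (isCompact_closedBall z s') (hcont.mono hclosed)).mono_set
      Metric.ball_subset_closedBall
  have habs : ∀ x, ‖x - w‖ ≤ 3 * s → |(c * U x).re| ≤ M := by
    intro x hx
    refine (Complex.abs_re_le_norm _).trans ?_
    rw [norm_mul]
    have := hM x hx
    have h2 := norm_nonneg (U x)
    nlinarith [norm_nonneg c]
  have h3 : ∫ x in Metric.ball w s, (2 * M + (c * U x).re) ≤ ∫ x in Metric.ball z s', (2 * M + (c * U x).re) := by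
    refine setIntegral_mono_set hI ?_ ?_
    · refine (ae_restrict_iff' measurableSet_ball).2 (Eventually.of_forall fun x hx => ?_)
      have hx' : ‖x - z‖ ≤ s' := by
        have : dist x z < s' := hx
        rw [dist_eq_norm] at this
        exact this.le
      have := (abs_le.1 (habs x (hzz x hx'))).1
      show 0 ≤ 2 * M + (c * U x).re
      linarith
    · refine Eventually.of_forall fun x hx => ?_
      have hx' : dist x w < s := hx
      show dist x z < s'
      have h4 := dist_triangle x w z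
      have h5 : dist w z ≤ ε * s := by rwa [dist_comm, dist_eq_norm]
      rw [hs']
      linarith
  have e1 := scale' (F := fun x => 2 * M + (c * U x).re) w hs
  have e2 := scale' (F := fun x => 2 * M + (c * U x).re) z hs'0
  have hvol : volume.real (Metric.ball (0 : ℂ) 1) = Real.pi := Pool.Agent.R737.HO.volume_real_ball
  have hIz : IntegrableOn (fun ξ : ℂ => (c * U (z + s' * ξ)).re) (Metric.ball (0 : ℂ) 1) := by
    refine (ContinuousOn.integrableOn_compact (isCompact_closedBall (0 : ℂ) 1) ?_).mono_set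
      Metric.ball_subset_closedBall
    refine Complex.continuous_re.comp_continuousOn (continuousOn_const.mul (hU.continuousOn.comp (by fun_prop) ?_))
    intro ξ hξ
    refine hclosed ?_
    rw [Metric.mem_closedBall, dist_eq_norm, add_sub_cancel_left, norm_mul, Complex.norm_real,
      Real.norm_of_nonneg hs'0.le]
    have : ‖ξ‖ ≤ 1 := by simpa using hξ
    nlinarith
  have hcI : Integrable (fun _ : ℂ => 2 * M) (volume.restrict (Metric.ball (0 : ℂ) 1)) :=
    integrableOn_const measure_ball_lt_top.ne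
  have e3 : ∫ ξ in Metric.ball (0:ℂ) 1, (2 * M + (c * U (z + s' * ξ)).re) =
      2 * M * Real.pi + ∫ ξ in Metric.ball (0:ℂ) 1, (c * U (z + s' * ξ)).re := by
    rw [integral_add hcI hIz, setIntegral_const, hvol, smul_eq_mul]
    ring
  have e4 : ∫ ξ in Metric.ball (0:ℂ) 1, (2 * M + (-c * U (z + s' * ξ)).re) =
      2 * M * Real.pi - ∫ ξ in Metric.ball (0:ℂ) 1, (c * U (z + s' * ξ)).re := by
    have e5 : ∀ ξ : ℂ, (-c * U (z + s' * ξ)).re = -(c * U (z + s' * ξ)).re := fun ξ => by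
      rw [neg_mul, Complex.neg_re]
    simp only [e5, ← sub_eq_add_neg]
    rw [integral_sub hcI hIz, setIntegral_const, hvol, smul_eq_mul]
    ring
  rw [e4] at h2
  set J : ℝ := ∫ ξ in Metric.ball (0:ℂ) 1, (c * U (z + s' * ξ)).re with hJ
  have h6 : ∫ ξ in Metric.ball (0:ℂ) 1, (2 * M + (c * U (w + s * ξ)).re) ≤ (1 + ε) ^ 2 * (2 * M * Real.pi + J) := by
    rw [e1, ← e3, e2]
    calc (s ^ 2)⁻¹ * ∫ x in Metric.ball w s, (2 * M + (c * U x).re)
        ≤ (s ^ 2)⁻¹ * ∫ x in Metric.ball z s', (2 * M + (c * U x).re) := by gcongr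
      _ = (1 + ε) ^ 2 * ((s' ^ 2)⁻¹ * ∫ x in Metric.ball z s', (2 * M + (c * U x).re)) := by
          rw [hs']
          field_simp
  set κ : ℝ := Real.exp (V₀ * s ^ 2) with hκ
  have hκ1 : Real.exp (V₀ * s ^ 2 / 4) ≤ κ := by
    refine Real.exp_le_exp.2 ?_
    have : 0 ≤ V₀ * s ^ 2 := by positivity
    linarith
  have hκ2 : Real.exp (V₀ * s' ^ 2 / 4) ≤ κ := by
    refine Real.exp_le_exp.2 ?_
    have : s' ^ 2 ≤ 4 * s ^ 2 := by nlinarith
    nlinarith
  have hpi := Real.pi_pos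
  have hz1 := abs_le.1 (habs z (hzz z (by simp [hs'0.le])))
  have hne : (-c * U z).re = -(c * U z).re := by rw [neg_mul, Complex.neg_re]
  rw [hne] at h2
  have hw0 := norm_nonneg (U w)
  have hP : 0 ≤ ∫ ξ in Metric.ball (0:ℂ) 1, (2 * M + (c * U (w + s * ξ)).re) := by
    by_contra hneg
    push Not at hneg
    have : Real.exp (V₀ * s ^ 2 / 4) * ∫ ξ in Metric.ball (0:ℂ) 1, (2 * M + (c * U (w + s * ξ)).re) < 0 :=
      mul_neg_of_pos_of_neg (Real.exp_pos _) hneg
    have h8 : 0 ≤ Real.pi * (2 * M + ‖U w‖) := by positivity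
    linarith
  have hQ : 0 ≤ 2 * M * Real.pi - J := by
    by_contra hneg
    push Not at hneg
    have : Real.exp (V₀ * s' ^ 2 / 4) * (2 * M * Real.pi - J) < 0 := mul_neg_of_pos_of_neg (Real.exp_pos _) hneg
    have h8 : 0 ≤ Real.pi * (2 * M + -(c * U z).re) := by
      have : 0 ≤ 2 * M + -(c * U z).re := by linarith
      positivity
    linarith
  have hκ0 : 0 < κ := Real.exp_pos _
  have hκ3 : 1 ≤ κ := Real.one_le_exp (by positivity)
  -- the two inequalities
  have i1 : Real.pi * (2 * M + ‖U w‖) ≤ κ * ((1 + ε) ^ 2 * (2 * M * Real.pi + J)) :=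
    h1.trans ((mul_le_mul_of_nonneg_right hκ1 hP).trans (mul_le_mul_of_nonneg_left h6 hκ0.le))
  have i2 : Real.pi * (2 * M + -(c * U z).re) ≤ κ * (2 * M * Real.pi - J) :=
    h2.trans (mul_le_mul_of_nonneg_right hκ2 hQ)
  have hre : (c * U z).re ≤ ‖U z‖ := by
    refine (Complex.re_le_norm _).trans ?_
    rw [norm_mul]
    have h2 := norm_nonneg (U z)
    nlinarith [norm_nonneg c]
  have hE : 1 ≤ (1 + ε) ^ 2 := one_le_pow₀ (by linarith)
  have i3 : Real.pi * (2 * M + -(c * U z).re) ≤ (1 + ε) ^ 2 * (κ * (2 * M * Real.pi - J)) :=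
    i2.trans (le_mul_of_one_le_left (mul_nonneg hκ0.le hQ) hE)
  have i4 : Real.pi * (‖U w‖ - (c * U z).re) ≤ Real.pi * (4 * M * (κ * (1 + ε) ^ 2 - 1)) := by
    have e6 : Real.pi * (‖U w‖ - (c * U z).re) =
        Real.pi * (2 * M + ‖U w‖) + Real.pi * (2 * M + -(c * U z).re) - Real.pi * (4 * M) := by ring
    have e7 : Real.pi * (4 * M * (κ * (1 + ε) ^ 2 - 1)) = κ * ((1 + ε) ^ 2 * (2 * M * Real.pi + J)) +
        (1 + ε) ^ 2 * (κ * (2 * M * Real.pi - J)) - Real.pi * (4 * M) := by ring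
    rw [e6, e7]
    linarith
  have i5 := le_of_mul_le_mul_left i4 hpi
  linarith

end Pool.Agent.U14.MV
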