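import Pool.Agent.R737.HO.MeanValue

/-!
# The mean value inequality for nonnegative `C²` functions with `Δ f ≥ - K f`

Variant of `Pool.Agent.R737.HO.MeanValue`.
-/

set_option autoImplicit false

open Filter Topology Set MeasureTheory

namespace Pool.Agent.U14.MV

open Pool.Agent.R737.HO

lemma contDiff_pd1 {f : ℂ → ℝ} (hf : ContDiff ℝ 2 f) (v : ℂ) : ContDiff ℝ 1 (pd v f) := by
  have h1 : ContDiff ℝ 1 (fderiv ℝ f) := hf.fderiv_right (m := 1) (by norm_num)
  exact h1.clm_apply contDiff_const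

/-- the radial derivative term is bounded below -/
lemma radial_ge {f : ℂ → ℝ} (hf : ContDiff ℝ 2 f) {p : ℂ} {t K : ℝ} (ht : 0 ≤ t) (hK : 0 ≤ K)
    (h : ∀ z, ‖z - p‖ ≤ t → 0 ≤ f z ∧ -(K * f z) ≤ pd 1 (pd 1 f) z + pd Complex.I (pd Complex.I f) z) :
    -(t * K / 2 * ∫ ξ in Metric.ball (0:ℂ) 1, f (p + t * ξ)) ≤
      ∫ ξ in Metric.ball (0:ℂ) 1, fderiv ℝ f (p + t * ξ) ξ := by
  have hg : ∀ v, ContDiff ℝ 1 (fun ζ : ℂ => pd v f (p + t * ζ)) := fun v =>
    (contDiff_pd1 hf v).comp (contDiff_const.add (contDiff_const.mul contDiff_id))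
  have hH : ∀ v, LC (fun ζ : ℂ => cap ζ * pd v f (p + t * ζ)) := fun v =>
    lc_cap.mul_contDiff (hg v)
  have h1 := (hH 1).integral_pd 1
  have h2 := (hH Complex.I).integral_pd Complex.I
  have i1 := (hH 1).integrable_pd 1
  have i2 := (hH Complex.I).integrable_pd Complex.I
  have hcont : Continuous (fun ξ : ℂ => fderiv ℝ f (p + t * ξ) ξ) := by
    have : Continuous (fderiv ℝ f) := hf.continuous_fderiv (by norm_num)
    exact (this.comp (by fun_prop : Continuous fun ξ : ℂ => p + t * ξ)).clm_apply continuous_id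
  have hcont0 : Continuous (fun ξ : ℂ => f (p + t * ξ)) :=
    hf.continuous.comp (by fun_prop)
  have hint : IntegrableOn (fun ξ : ℂ => fderiv ℝ f (p + t * ξ) ξ) (Metric.ball (0:ℂ) 1) :=
    (hcont.continuousOn.integrableOn_compact (isCompact_closedBall 0 1)).mono_set
      Metric.ball_subset_closedBall
  have hint0 : IntegrableOn (fun ξ : ℂ => f (p + t * ξ)) (Metric.ball (0:ℂ) 1) :=
    (hcont0.continuousOn.integrableOn_compact (isCompact_closedBall 0 1)).mono_set
      Metric.ball_subset_closedBall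
  have hint2 : IntegrableOn (fun ξ : ℂ => t * K * f (p + t * ξ) + 2 * fderiv ℝ f (p + t * ξ) ξ)
      (Metric.ball (0:ℂ) 1) := (hint0.const_mul (t * K)).add (hint.const_mul 2)
  have h3 : ∫ ξ : ℂ, (pd 1 (fun ζ : ℂ => cap ζ * pd 1 f (p + t * ζ)) ξ
      + pd Complex.I (fun ζ : ℂ => cap ζ * pd Complex.I f (p + t * ζ)) ξ) = 0 := by
    rw [integral_add i1 i2, h1, h2, add_zero]
  have h4 : -∫ ξ in Metric.ball (0:ℂ) 1, (t * K * f (p + t * ξ) + 2 * fderiv ℝ f (p + t * ξ) ξ)
      ≤ ∫ ξ : ℂ, (pd 1 (fun ζ : ℂ => cap ζ * pd 1 f (p + t * ζ)) ξ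
      + pd Complex.I (fun ζ : ℂ => cap ζ * pd Complex.I f (p + t * ζ)) ξ) := by
    rw [← integral_indicator measurableSet_ball, ← integral_neg]
    have hint3 : Integrable ((Metric.ball (0:ℂ) 1).indicator
        (fun ξ : ℂ => t * K * f (p + t * ξ) + 2 * fderiv ℝ f (p + t * ξ) ξ)) :=
      hint2.integrable_indicator measurableSet_ball
    apply integral_mono_ae hint3.neg (i1.add i2)
    filter_upwards [ae_norm_ne_one] with ξ hξ
    have hd : ∀ v, DifferentiableAt ℝ (fun ζ : ℂ => pd v f (p + t * ζ)) ξ := fun v =>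
      (hg v).differentiable (by norm_num) ξ
    have hpp : ∀ v, pd v (fun ζ : ℂ => pd v f (p + t * ζ)) ξ = t * pd v (pd v f) (p + t * ξ) :=
      fun v => (pd_comp_affine ((contDiff_pd1 hf v).differentiable (by norm_num) _)).2
    simp only [Pi.neg_apply, Pi.add_apply]
    rcases lt_or_gt_of_ne hξ with h5 | h5
    · have h6 : ξ ∈ Metric.ball (0:ℂ) 1 := by simpa using h5
      rw [indicator_of_mem h6]
      rw [pd_mul (pd_cap_of_lt h5 1).1 (hd 1), pd_mul (pd_cap_of_lt h5 1).1 (hd _),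
        (pd_cap_of_lt h5 1).2, (pd_cap_of_lt h5 Complex.I).2, hpp, hpp, fderiv_apply_eq]
      have h7 : ‖(p + t * ξ) - p‖ ≤ t := by
        rw [add_sub_cancel_left, norm_mul, Complex.norm_real, Real.norm_of_nonneg ht]
        nlinarith
      obtain ⟨h8', h8⟩ := h _ h7
      have h9 := cap_nonneg ξ
      have h10 := cap_le_one ξ
      simp only [Complex.one_re, Complex.one_im, Complex.I_re, Complex.I_im]
      have h11 : -(t * K * f (p + t * ξ)) ≤ cap ξ * t * (pd 1 (pd 1 f) (p + t * ξ)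
          + pd Complex.I (pd Complex.I f) (p + t * ξ)) := by
        have h12 : cap ξ * t * (-(K * f (p + t * ξ))) ≤ cap ξ * t * (pd 1 (pd 1 f) (p + t * ξ)
          + pd Complex.I (pd Complex.I f) (p + t * ξ)) := by gcongr
        have h13 : cap ξ * (t * K * f (p + t * ξ)) ≤ 1 * (t * K * f (p + t * ξ)) := by gcongr
        linarith
      linarith
    · have h6 : ξ ∉ Metric.ball (0:ℂ) 1 := by simpa using h5.le
      rw [indicator_of_notMem h6]
      rw [pd_mul (pd_cap_of_gt h5 1).1 (hd 1), pd_mul (pd_cap_of_gt h5 1).1 (hd _),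
        (pd_cap_of_gt h5 1).2, (pd_cap_of_gt h5 Complex.I).2, cap_eq_zero h5.le]
      simp
  rw [h3] at h4
  have e1 : ∫ ξ in Metric.ball (0:ℂ) 1, 2 * fderiv ℝ f (p + t * ξ) ξ
      = 2 * ∫ ξ in Metric.ball (0:ℂ) 1, fderiv ℝ f (p + t * ξ) ξ := integral_const_mul _ _
  have e2 : ∫ ξ in Metric.ball (0:ℂ) 1, t * K * f (p + t * ξ)
      = t * K * ∫ ξ in Metric.ball (0:ℂ) 1, f (p + t * ξ) := integral_const_mul _ _
  rw [integral_add (hint0.const_mul (t * K)) (hint.const_mul 2), e1, e2] at h4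
  linarith

/-- **The mean value inequality.** -/
theorem mean_value {f : ℂ → ℝ} (hf : ContDiff ℝ 2 f) {p : ℂ} {ρ K : ℝ} (hρ : 0 < ρ) (hK : 0 ≤ K)
    (h : ∀ z, ‖z - p‖ ≤ ρ → 0 ≤ f z ∧ -(K * f z) ≤ pd 1 (pd 1 f) z + pd Complex.I (pd Complex.I f) z) :
    Real.pi * f p ≤ Real.exp (K * ρ ^ 2 / 4) * ∫ ξ in Metric.ball (0:ℂ) 1, f (p + ρ * ξ) := by
  have hcf : Continuous (fderiv ℝ f) := hf.continuous_fderiv (by norm_num)
  have hcont2 : Continuous (fun q : ℝ × ℂ => fderiv ℝ f (p + q.1 * q.2) q.2) :=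
    (hcf.comp (by fun_prop : Continuous fun q : ℝ × ℂ => p + q.1 * q.2)).clm_apply continuous_snd
  set F : ℝ → ℝ := fun t => ∫ ξ in Metric.ball (0:ℂ) 1, f (p + t * ξ) with hF
  set H : ℝ → ℝ := fun t => ∫ ξ in Metric.ball (0:ℂ) 1, fderiv ℝ f (p + t * ξ) ξ with hH
  have hball : Metric.ball (0:ℂ) 1 =ᵐ[volume] Metric.closedBall (0:ℂ) 1 := by
    refine (Metric.ball_subset_closedBall.eventuallyLE).antisymm ?_
    filter_upwards [ae_norm_ne_one] with ξ hξ h10
    have h11 : ‖ξ‖ ≤ 1 := by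
      have : ξ ∈ Metric.closedBall (0:ℂ) 1 := h10
      simpa using this
    have : ξ ∈ Metric.ball (0:ℂ) 1 := by
      simpa using lt_of_le_of_ne h11 hξ
    exact this
  have hHc : Continuous H := by
    have h7 : ∀ t : ℝ, H t = ∫ ξ in Metric.closedBall (0:ℂ) 1, fderiv ℝ f (p + t * ξ) ξ := fun t =>
      setIntegral_congr_set hball
    rw [show H = fun t : ℝ => ∫ ξ in Metric.closedBall (0:ℂ) 1, fderiv ℝ f (p + t * ξ) ξ from funext h7]
    exact continuous_parametric_integral_of_continuous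
      (by exact hcont2) (isCompact_closedBall (0:ℂ) 1)
  have hint : ∀ t : ℝ, IntegrableOn (fun ξ : ℂ => f (p + t * ξ)) (Metric.ball (0:ℂ) 1) := fun t =>
    ((hf.continuous.comp (by fun_prop : Continuous fun ξ : ℂ => p + t * ξ)).continuousOn.integrableOn_compact
      (isCompact_closedBall 0 1)).mono_set Metric.ball_subset_closedBall
  have key : ∀ t : ℝ, 0 ≤ t → F t = F 0 + ∫ s in (0:ℝ)..t, H s := by
    intro t ht
    have h1 : ∀ ξ : ℂ, f (p + t * ξ) - f (p + (0 : ℝ) * ξ) = ∫ s in (0:ℝ)..t, fderiv ℝ f (p + s * ξ) ξ := by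
      intro ξ
      have h2 : ∀ s ∈ uIcc 0 t, HasDerivAt (fun s : ℝ => f (p + s * ξ))
          (fderiv ℝ f (p + s * ξ) ξ) s := fun s _ =>
        hasDerivAt_line (hf.differentiable (by norm_num) _)
      have h3 : Continuous (fun s : ℝ => fderiv ℝ f (p + s * ξ) ξ) :=
        (hcf.comp (by fun_prop : Continuous fun s : ℝ => p + s * ξ)).clm_apply continuous_const
      rw [intervalIntegral.integral_eq_sub_of_hasDerivAt h2 (h3.intervalIntegrable _ _)]
    have h4 : ∫ ξ in Metric.ball (0:ℂ) 1, (∫ s in (0:ℝ)..t, fderiv ℝ f (p + s * ξ) ξ)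
        = ∫ s in (0:ℝ)..t, (∫ ξ in Metric.ball (0:ℂ) 1, fderiv ℝ f (p + s * ξ) ξ) := by
      rw [← intervalIntegral_integral_swap]
      rw [Measure.prod_restrict, uIoc_of_le ht]
      have h5 : IntegrableOn (fun q : ℝ × ℂ => fderiv ℝ f (p + q.1 * q.2) q.2)
          (Icc 0 t ×ˢ Metric.closedBall (0:ℂ) 1) (volume.prod volume) :=
        hcont2.continuousOn.integrableOn_compact (isCompact_Icc.prod (isCompact_closedBall 0 1))
      exact h5.mono_set (prod_mono Ioc_subset_Icc_self Metric.ball_subset_closedBall)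
    have h6 : ∫ ξ in Metric.ball (0:ℂ) 1, (f (p + t * ξ) - f (p + (0 : ℝ) * ξ))
        = ∫ s in (0:ℝ)..t, H s := by
      rw [← h4]
      simp_rw [h1]
    rw [integral_sub (hint t) (hint 0)] at h6
    show (∫ ξ in Metric.ball (0:ℂ) 1, f (p + t * ξ)) = (∫ ξ in Metric.ball (0:ℂ) 1, f (p + (0 : ℝ) * ξ)) + _
    linarith
  have hFd : ∀ t : ℝ, 0 < t → HasDerivAt F (H t) t := by
    intro t ht
    have h1 : HasDerivAt (fun t => F 0 + ∫ s in (0:ℝ)..t, H s) (H t) t := by
      have := intervalIntegral.integral_hasDerivAt_right (hHc.intervalIntegrable 0 t)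
        hHc.stronglyMeasurable.stronglyMeasurableAtFilter hHc.continuousAt
      exact this.const_add _
    refine h1.congr_of_eventuallyEq ?_
    filter_upwards [eventually_gt_nhds ht] with s hs
    exact key s hs.le
  have hmono : MonotoneOn (fun t => F t * Real.exp (K * t ^ 2 / 4)) (Icc 0 ρ) := by
    refine monotoneOn_of_deriv_nonneg (convex_Icc 0 ρ) ?_ ?_ ?_
    · have h1 : ContinuousOn F (Icc 0 ρ) := by
        have h2 : Continuous fun t => F 0 + ∫ s in (0:ℝ)..t, H s :=
          continuous_const.add (intervalIntegral.continuous_primitive (fun a b => hHc.intervalIntegrable a b) 0)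
        exact h2.continuousOn.congr fun t ht => key t ht.1
      exact h1.mul (by fun_prop)
    · intro t ht
      rw [interior_Icc] at ht
      exact ((hFd t ht.1).differentiableAt.mul (by fun_prop)).differentiableWithinAt
    · intro t ht
      rw [interior_Icc] at ht
      have h1 := hFd t ht.1
      have h2 : HasDerivAt (fun t : ℝ => Real.exp (K * t ^ 2 / 4)) (Real.exp (K * t ^ 2 / 4) * (K * t / 2)) t := by
        have h3 : HasDerivAt (fun t : ℝ => K * t ^ 2 / 4) (K * t / 2) t := by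
          have := ((hasDerivAt_pow 2 t).const_mul K).div_const 4
          refine this.congr_deriv ?_
          ring
        exact h3.exp
      rw [(h1.fun_mul h2).deriv]
      have h4 := radial_ge hf ht.1.le hK (fun z hz => h z (hz.trans ht.2.le))
      have h5 : -(t * K / 2 * F t) ≤ H t := h4
      have h6 := Real.exp_pos (K * t ^ 2 / 4)
      have h7 : H t * Real.exp (K * t ^ 2 / 4) + F t * (Real.exp (K * t ^ 2 / 4) * (K * t / 2)) =
          (H t + t * K / 2 * F t) * Real.exp (K * t ^ 2 / 4) := by ring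
      rw [h7]
      exact mul_nonneg (by linarith) h6.le
  have h8 := hmono (left_mem_Icc.2 hρ.le) (right_mem_Icc.2 hρ.le) hρ.le
  simp only [ne_eq, OfNat.ofNat_ne_zero, not_false_eq_true, zero_pow, mul_zero, zero_div, Real.exp_zero, mul_one] at h8
  have h9 : F 0 = Real.pi * f p := by
    show (∫ ξ in Metric.ball (0:ℂ) 1, f (p + (0 : ℝ) * ξ)) = _
    simp only [Complex.ofReal_zero, zero_mul, add_zero, integral_const, MeasurableSet.univ,
      measureReal_restrict_apply, univ_inter, volume_real_ball, smul_eq_mul]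
  rw [h9] at h8
  rw [mul_comm (Real.exp _)]
  exact h8

end Pool.Agent.U14.MV
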